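import Mathlib
import Pool.Agent.R440.D518.G
import Pool.Agent.R440.D518.H

/-!
# Q2: `2n³ C(2n,n)³` divides both sums

Two WZ pairs (Dougall `₇F₆` seeds) give closed forms
`∑_{k<n} F(k) C(2k,k)^7 256^{n-1-k} / (2n³C(2n,n)³) = ∑ (n/16)(2k+1) T(n,k)²` and
`∑_{k<n} G(k) C(2k,k)^7 2^{20(n-1-k)} / (2n³C(2n,n)³) = ∑ (2n-1)(2k+1) X(n,k)²/16`
whose terms are `p`-integral for odd `p`; at `2` the terms are paired.
-/

set_option autoImplicit false

namespace Pool.Agent.Results.MP_48d34c_nt.Divisibility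

open Finset

/-- Q2. For every integer `n > 1` the number `2 n³ C(2n,n)³` divides both sums. -/
theorem result (n : ℕ) (hn : 1 < n) :
    2 * n ^ 3 * ((2 * n).choose n) ^ 3 ∣
      ∑ k ∈ range n, (21 * k ^ 3 + 22 * k ^ 2 + 8 * k + 1) * ((2 * k).choose k) ^ 7 *
        256 ^ (n - 1 - k) ∧
    2 * n ^ 3 * ((2 * n).choose n) ^ 3 ∣
      ∑ k ∈ range n, (168 * k ^ 3 + 76 * k ^ 2 + 14 * k + 1) * ((2 * k).choose k) ^ 7 *
        2 ^ (20 * (n - 1 - k)) :=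
  ⟨Pool.Agent.R440.D518.dvd_F n hn, Pool.Agent.R440.D518.Gou.dvd_G n hn⟩

end Pool.Agent.Results.MP_48d34c_nt.Divisibility
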